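import Pool.Agent.Helper50.GX.Defs

set_option autoImplicit false

/-! Module DIV: skew polynomials form a domain. -/

namespace Pool.Agent.Helper50.GX

open Polynomial

/-- the determinant in terms of the first row -/
noncomputable def div_D {K : Type} [Field K] (S : K[X] →+* K[X]) (a b c : K[X]) : K[X] :=
  a * S a * S (S a) + X * (b * S b * S (S b)) + X ^ 2 * (c * S c * S (S c)) -
    X * (a * S b * S (S c) + b * S c * S (S a) + c * S a * S (S b))

theorem div_shift {K : Type} [Field K] (S : K[X] →+* K[X]) (hX : S X = X) (a b c : K[X]) :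
    div_D S (X * a) b c = X * div_D S b c a := by
  unfold div_D
  simp only [map_mul, hX]
  ring

theorem div_main {K : Type} [Field K] (σ : K ≃+* K) (n : ℕ) : ∀ a b c : K[X],
    ((∃ s, 3 * s = n ∧ a.coeff s ≠ 0) ∨ (∃ s, 3 * s + 1 = n ∧ b.coeff s ≠ 0) ∨
      (∃ s, 3 * s + 2 = n ∧ c.coeff s ≠ 0)) →
    div_D (Polynomial.mapRingHom (σ : K →+* K)) a b c ≠ 0 := by
  induction n with
  | zero =>
    intro a b c h
    rcases h with ⟨s, hs, h⟩ | ⟨s, hs, _⟩ | ⟨s, hs, _⟩
    · have hs0 : s = 0 := by omega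
      subst hs0
      intro h0
      have h1 := congrArg (fun p : K[X] => p.coeff 0) h0
      simp only [div_D, coe_mapRingHom, coeff_sub, coeff_add, coeff_zero, mul_coeff_zero,
        coeff_X_zero, coeff_X_pow, zero_mul, coeff_map] at h1
      simp only [add_zero, sub_zero] at h1
      have h2 : σ (a.coeff 0) ≠ 0 := by
        intro h3; exact h ((map_eq_zero_iff σ σ.injective).1 h3)
      have h3 : σ (σ (a.coeff 0)) ≠ 0 := by
        intro h4; exact h2 ((map_eq_zero_iff σ σ.injective).1 h4)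
      have h4 : a.coeff 0 * σ (a.coeff 0) * σ (σ (a.coeff 0)) ≠ 0 := mul_ne_zero (mul_ne_zero h h2) h3
      apply h4
      simpa using h1
    · omega
    · omega
  | succ n ih =>
    intro a b c h
    by_cases ha : a.coeff 0 = 0
    · obtain ⟨a', rfl⟩ := Polynomial.X_dvd_iff.2 ha
      rw [div_shift _ (by simp)]
      apply mul_ne_zero X_ne_zero
      apply ih
      rcases h with ⟨s, hs, h⟩ | ⟨s, hs, h⟩ | ⟨s, hs, h⟩
      · right; right
        obtain ⟨t, rfl⟩ : ∃ t, s = t + 1 := ⟨s - 1, by omega⟩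
        refine ⟨t, by omega, ?_⟩
        rwa [coeff_X_mul] at h
      · left; exact ⟨s, by omega, h⟩
      · right; left; exact ⟨s, by omega, h⟩
    · intro h0
      have h1 := congrArg (fun p : K[X] => p.coeff 0) h0
      simp only [div_D, coe_mapRingHom, coeff_sub, coeff_add, coeff_zero, mul_coeff_zero,
        coeff_X_zero, coeff_X_pow, zero_mul, coeff_map] at h1
      simp only [add_zero, sub_zero] at h1
      have h2 : σ (a.coeff 0) ≠ 0 := by
        intro h3; exact ha ((map_eq_zero_iff σ σ.injective).1 h3)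
      have h3 : σ (σ (a.coeff 0)) ≠ 0 := by
        intro h4; exact h2 ((map_eq_zero_iff σ σ.injective).1 h4)
      have h4 : a.coeff 0 * σ (a.coeff 0) * σ (σ (a.coeff 0)) ≠ 0 :=
        mul_ne_zero (mul_ne_zero ha h2) h3
      apply h4
      simpa using h1

theorem st_DIV : ST_DIV := by
  intro K _ σ M hM hM0
  obtain ⟨S, hS⟩ : ∃ S : K[X] →+* K[X], S = Polynomial.mapRingHom (σ : K →+* K) := ⟨_, rfl⟩
  have hSX : S X = X := by rw [hS]; simp
  have hent := fun i j => congrFun (congrFun hM i) j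
  have hmap : ∀ i j : Fin 3, (Matrix.map M (Polynomial.map (σ : K →+* K))) i j = S (M i j) := by
    intro i j; rw [hS]; rfl
  have e10 := hent 0 0
  have e11 := hent 0 1
  have e12 := hent 0 2
  have e20 := hent 1 0
  have e21 := hent 1 1
  have e22 := hent 1 2
  rw [Matrix.mul_apply, Matrix.mul_apply, Fin.sum_univ_three, Fin.sum_univ_three] at e10 e11 e12
  rw [Matrix.mul_apply, Matrix.mul_apply, Fin.sum_univ_three, Fin.sum_univ_three] at e20 e21 e22
  simp only [hmap] at e10 e11 e12 e20 e21 e22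
  have z00 : (Zm : Mat K) 0 0 = 0 := rfl
  have z01 : (Zm : Mat K) 0 1 = 1 := rfl
  have z02 : (Zm : Mat K) 0 2 = 0 := rfl
  have z10 : (Zm : Mat K) 1 0 = 0 := rfl
  have z11 : (Zm : Mat K) 1 1 = 0 := rfl
  have z12 : (Zm : Mat K) 1 2 = 1 := rfl
  have z20 : (Zm : Mat K) 2 0 = X := rfl
  have z21 : (Zm : Mat K) 2 1 = 0 := rfl
  have z22 : (Zm : Mat K) 2 2 = 0 := rfl
  simp only [z00, z01, z02, z10, z11, z12, z20, z21, z22, mul_zero, zero_mul, mul_one, one_mul,
    zero_add, add_zero] at e10 e11 e12 e20 e21 e22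
  have f21 : M 2 1 = S (X * 0 + M 1 0) := by rw [← e21]; simp
  rw [mul_zero, zero_add] at f21
  rw [← e10] at f21
  have hdet : Matrix.det M = div_D S (M 0 0) (M 0 1) (M 0 2) := by
    rw [Matrix.det_fin_three, ← e20, ← e22, f21, ← e10, ← e11, ← e12]
    unfold div_D
    simp only [map_mul, hSX]
    ring
  rw [hdet, hS]
  have hne : M 0 0 ≠ 0 ∨ M 0 1 ≠ 0 ∨ M 0 2 ≠ 0 := by
    by_contra hcon
    push Not at hcon
    obtain ⟨h0, h1, h2⟩ := hcon
    rw [h2] at e10
    rw [h0] at e11
    rw [h1] at e12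
    simp only [map_zero, zero_mul] at e10 e11 e12
    rw [← e12] at e20
    rw [← e10] at e21
    rw [← e11] at e22
    simp only [map_zero, zero_mul] at e20 e21 e22
    apply hM0
    ext i j : 2
    fin_cases i <;> fin_cases j <;> simp [h0, h1, h2, ← e10, ← e11, ← e12, ← e20, ← e21, ← e22]
  rcases hne with h | h | h
  · obtain ⟨s, hs⟩ : ∃ s, (M 0 0).coeff s ≠ 0 := by
      by_contra hc; push Not at hc; exact h (Polynomial.ext (by simpa using hc))
    exact div_main σ (3 * s) _ _ _ (Or.inl ⟨s, rfl, hs⟩)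
  · obtain ⟨s, hs⟩ : ∃ s, (M 0 1).coeff s ≠ 0 := by
      by_contra hc; push Not at hc; exact h (Polynomial.ext (by simpa using hc))
    exact div_main σ (3 * s + 1) _ _ _ (Or.inr (Or.inl ⟨s, rfl, hs⟩))
  · obtain ⟨s, hs⟩ : ∃ s, (M 0 2).coeff s ≠ 0 := by
      by_contra hc; push Not at hc; exact h (Polynomial.ext (by simpa using hc))
    exact div_main σ (3 * s + 2) _ _ _ (Or.inr (Or.inr ⟨s, rfl, hs⟩))

end Pool.Agent.Helper50.GX
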