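import Pool.Agent.Helper50.GX.Defs

set_option autoImplicit false

/-! Module FIN: the theorem for degree three. -/

namespace Pool.Agent.Helper50.GX

open Polynomial

theorem fin_rpow (n v r : ℕ) (hv : 1 ≤ v) (h : n < 4 * (2 ^ v) ^ (r + 1)) :
    (n : ℝ) ^ (1 / (v : ℝ)) ≤ 8 * 2 ^ r := by
  have h1 : n ≤ (8 * 2 ^ r) ^ v := by
    have e1 : (2 ^ v) ^ (r + 1) = 2 ^ v * (2 ^ r) ^ v := by
      rw [← pow_mul, ← pow_mul, ← pow_add]; ring_nf
    have e2 : (8 * 2 ^ r) ^ v = 4 ^ v * (2 ^ v * (2 ^ r) ^ v) := by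
      have : (8 : ℕ) = 4 * 2 := by norm_num
      rw [mul_pow, this, mul_pow]; ring
    rw [e2]
    rw [e1] at h
    have e3 : 4 ≤ 4 ^ v := by
      calc 4 = 4 ^ 1 := by norm_num
        _ ≤ 4 ^ v := Nat.pow_le_pow_right (by norm_num) hv
    exact h.le.trans (Nat.mul_le_mul_right _ e3)
  have h2 : (n : ℝ) ≤ ((8 * 2 ^ r : ℝ)) ^ v := by exact_mod_cast h1
  calc (n : ℝ) ^ (1 / (v : ℝ)) ≤ (((8 * 2 ^ r : ℝ)) ^ v) ^ (1 / (v : ℝ)) := by
        apply Real.rpow_le_rpow (Nat.cast_nonneg n) h2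
        positivity
    _ = 8 * 2 ^ r := by
        rw [one_div]
        exact Real.pow_rpow_inv_natCast (by positivity) (by omega)

theorem st_FIN (hGRP : ST_GRP) (hHAAR : ST_HAAR) (hFLD : ST_FLD) (hCOPY : ST_COPY) : ST_FIN := by
  intro d hd
  obtain ⟨v, hv⟩ : ∃ v : ℕ, v = 3 * d - 1 - (d - 1) / 3 := ⟨_, rfl⟩
  have hv2 : 2 ≤ v := by omega
  refine ⟨1 / 32, by norm_num, 4 * 2 ^ v, ?_⟩
  intro n hn
  rw [← hv]
  have hn4 : 2 ^ v ≤ n / 4 := by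
    rw [Nat.le_div_iff_mul_le (by norm_num)]
    linarith
  have hbase : 1 < 2 ^ v := Nat.one_lt_two_pow (by omega)
  have hn40 : n / 4 ≠ 0 := by
    have : 0 < 2 ^ v := by positivity
    omega
  obtain ⟨r, hr⟩ : ∃ r, r = Nat.log (2 ^ v) (n / 4) := ⟨_, rfl⟩
  have hr1 : 1 ≤ r := by
    rw [hr]
    exact Nat.log_pos hbase hn4
  have hle : (2 ^ v) ^ r ≤ n / 4 := by
    rw [hr]; exact Nat.pow_log_le_self _ hn40
  have hlt : n / 4 < (2 ^ v) ^ (r + 1) := by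
    rw [hr]; exact Nat.lt_pow_succ_log_self hbase _
  have hlt' : n < 4 * (2 ^ v) ^ (r + 1) := by
    rw [Nat.div_lt_iff_lt_mul (by norm_num)] at hlt
    linarith
  obtain ⟨K, iF, iFin, σ, hD, hK, hX, h1, h0⟩ := hFLD r hr1
  obtain ⟨Q, iG, iQ, t, hQ, hrel⟩ := hGRP K σ hD d hd
  obtain ⟨V, iV, iNe, G, hV, hdeg, hcyc⟩ := hHAAR Q (XS σ) t (2 * d) (by omega) hrel
  have hcardQ : Nat.card Q ≤ 2 * (2 ^ r) ^ v := by
    refine hQ.trans ?_
    rw [hK]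
    have hexp : 2 * (2 ^ r) ^ 2 * ((2 ^ r) ^ 3) ^ (d - 1 - (d - 1) / 3) *
        ((2 ^ r) ^ 2) ^ ((d - 1) / 3) = 2 * (2 ^ r) ^ v := by
      rw [← pow_mul (2 ^ r) 3, ← pow_mul (2 ^ r) 2 ((d - 1) / 3), mul_assoc, mul_assoc, ← pow_add,
        ← pow_add]
      congr 2
      omega
    rw [← hexp]
    apply Nat.mul_le_mul
    · exact Nat.mul_le_mul_right _ h1
    · exact Nat.pow_le_pow_left h0 _
  have hVn : Nat.card V ≤ n := by
    have e : (2 ^ r) ^ v = (2 ^ v) ^ r := by rw [← pow_mul, ← pow_mul, mul_comm]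
    rw [hV]
    have : 4 * (2 ^ v) ^ r ≤ n := by
      have := (Nat.le_div_iff_mul_le (by norm_num)).1 hle
      linarith
    rw [← e] at this
    linarith
  obtain ⟨H, hH1, hH2⟩ := hCOPY V G (4 * d + 2) (Nat.card (XS σ)) n hdeg
    (fun u w hw => by have := hcyc u w hw; omega) hVn
  refine ⟨H, hH1, ?_⟩
  have hnpos : 0 < n := by
    have : 0 < 4 * 2 ^ v := by positivity
    omega
  have hnR : (0 : ℝ) < n := by exact_mod_cast hnpos
  have hfin := fin_rpow n v r (by omega) hlt'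
  rw [Real.rpow_add hnR, Real.rpow_one]
  have h5 : (n : ℝ) * 2 ^ r ≤ 4 * (H.edgeSet.ncard : ℝ) := by
    have h6 : n * 2 ^ r ≤ 4 * H.edgeSet.ncard := by
      refine le_trans ?_ hH2
      apply Nat.mul_le_mul_left
      omega
    exact_mod_cast h6
  have h7 : (n : ℝ) * (n : ℝ) ^ (1 / (v : ℝ)) ≤ n * (8 * 2 ^ r) :=
    mul_le_mul_of_nonneg_left hfin hnR.le
  linarith

end Pool.Agent.Helper50.GX
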